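import Mathlib
import Pool.Agent.H39.JC4

namespace Pool.Agent.Results.MP_1e3442_gt.NotSober

open Pool.Agent.H39

theorem result :
    ∃ (α : Type) (_ : PartialOrder α) (_ : TopologicalSpace α) (_ : Topology.IsScott α Set.univ),
      (∀ D : Set α, D.Nonempty → DirectedOn (· ≤ ·) D → ∃ s, IsLUB D s) ∧
      (∀ (x : α) (D : Set α) (s : α), D.Nonempty → DirectedOn (· ≤ ·) D → IsLUB D s →
          x ≤ s → x ∈ closure {y : α | y ≤ x ∧ ∃ d ∈ D, y ≤ d}) ∧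
      (∀ (x : α) (U : Set α), IsOpen U → x ∈ U →
          ∃ V : Set α, IsOpen V ∧ x ∈ V ∧ V ⊆ U ∧
            ∀ 𝒲 : Set (Set α), (∀ W ∈ 𝒲, IsOpen W) → U ⊆ ⋃₀ 𝒲 →
              ∃ 𝒯 ⊆ 𝒲, 𝒯.Finite ∧ V ⊆ ⋃₀ 𝒯) ∧
      ¬ QuasiSober α :=
  ⟨JC4.Pt, inferInstance, inferInstance, inferInstance,
    fun D h1 h2 => (JC4.dir D h1 h2).imp fun _ hs => hs.1, JC4.meet_cont, JC4.core, JC4.not_sober⟩

end Pool.Agent.Results.MP_1e3442_gt.NotSober
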